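import Pool.Agent.R489.HB.Stm

set_option autoImplicit false

/-!
# SPLD: every cycle of one side of a separating triangle bounds
-/

namespace Pool.Agent.R97.HB

open Finset Pool.Agent.R489.HB

section
variable {W : Type} [DecidableEq W]

theorem mem_edg {Φ : Finset (Finset W)} {e : Finset W} :
    e ∈ edg Φ ↔ ∃ f ∈ Φ, e ⊆ f ∧ e.card = 2 := by
  unfold edg
  simp only [Finset.mem_biUnion, Finset.mem_powersetCard]

theorem fc_card_add {Ψ Φ1 Φ2 : Finset (Finset W)} (hd : Disjoint Φ1 Φ2) (hs : Ψ ⊆ Φ1 ∪ Φ2)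
    (e : Finset W) : (fc Ψ e).card = (fc (Ψ ∩ Φ1) e).card + (fc (Ψ ∩ Φ2) e).card := by
  have h1 : fc Ψ e = fc (Ψ ∩ Φ1) e ∪ fc (Ψ ∩ Φ2) e := by
    ext f
    simp only [fc, mem_filter, mem_union, mem_inter]
    constructor
    · rintro ⟨h1, h2⟩
      rcases mem_union.1 (hs h1) with h | h
      · exact Or.inl ⟨⟨h1, h⟩, h2⟩
      · exact Or.inr ⟨⟨h1, h⟩, h2⟩
    · rintro (⟨⟨h1, _⟩, h2⟩ | ⟨⟨h1, _⟩, h2⟩) <;> exact ⟨h1, h2⟩
  rw [h1, card_union_of_disjoint]
  exact Finset.disjoint_left.2 fun f h2 h3 => Finset.disjoint_left.1 hd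
    (mem_inter.1 (mem_filter.1 h2).1).2 (mem_inter.1 (mem_filter.1 h3).1).2

theorem star {f : Finset W} {x : W} (hx : x ∈ f) :
    (f.powersetCard 2).filter (fun e => x ∈ e) = (f.erase x).image (fun w => ({x, w} : Finset W)) := by
  ext e
  simp only [mem_filter, mem_powersetCard, mem_image, mem_erase]
  constructor
  · rintro ⟨⟨h1, h2⟩, h3⟩
    have h4 : (e.erase x).card = 1 := by rw [card_erase_of_mem h3, h2]
    obtain ⟨w, hw⟩ := card_eq_one.1 h4
    have h5 : w ∈ e.erase x := by rw [hw]; exact mem_singleton_self w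
    obtain ⟨h6, h7⟩ := mem_erase.1 h5
    refine ⟨w, ⟨h6, h1 h7⟩, ?_⟩
    rw [← insert_erase h3, hw]
  · rintro ⟨w, ⟨h1, h2⟩, rfl⟩
    refine ⟨⟨?_, card_pair (Ne.symm h1)⟩, mem_insert_self _ _⟩
    intro y hy
    rcases mem_insert.1 hy with rfl | hy
    · exact hx
    · rw [mem_singleton.1 hy]; exact h2

theorem star_inj {f : Finset W} {x : W} :
    Set.InjOn (fun w => ({x, w} : Finset W)) (f.erase x : Finset W) := by
  intro w hw w' hw' h
  have hw1 := (mem_erase.1 (mem_coe.1 hw)).1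
  have h1 : w ∈ ({x, w'} : Finset W) := by
    have h2 : w ∈ ({x, w} : Finset W) := by simp
    have h3 : ({x, w} : Finset W) = {x, w'} := h
    rw [← h3]; exact h2
  rcases mem_insert.1 h1 with h2 | h2
  · exact absurd h2 hw1
  · exact mem_singleton.1 h2

theorem vert_even {Φ Ψ : Finset (Finset W)} (h3 : ∀ f ∈ Φ, f.card = 3) (hΨ : Ψ ⊆ Φ) (x : W) :
    Even (∑ e ∈ (edg Φ).filter (fun e => x ∈ e), (fc Ψ e).card) := by
  have h1 : ∑ e ∈ (edg Φ).filter (fun e => x ∈ e), (fc Ψ e).card =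
      ∑ f ∈ Ψ, (((edg Φ).filter (fun e => x ∈ e)).filter (fun e => e ⊆ f)).card :=
    Finset.sum_card_bipartiteAbove_eq_sum_card_bipartiteBelow (fun e f : Finset W => e ⊆ f)
  rw [h1]
  refine Finset.even_sum _ fun f hf => ?_
  have h2 : ((edg Φ).filter (fun e => x ∈ e)).filter (fun e => e ⊆ f) =
      (f.powersetCard 2).filter (fun e => x ∈ e) := by
    ext e
    simp only [mem_filter, mem_powersetCard, mem_edg]
    constructor
    · rintro ⟨⟨⟨g, _, _, h4⟩, h5⟩, h6⟩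
      exact ⟨⟨h6, h4⟩, h5⟩
    · rintro ⟨⟨h4, h5⟩, h6⟩
      exact ⟨⟨⟨f, hΨ hf, h4, h5⟩, h6⟩, h4⟩
  rw [h2]
  by_cases hx : x ∈ f
  · rw [star hx, card_image_of_injOn star_inj, card_erase_of_mem hx, h3 f (hΨ hf)]
    decide
  · have h4 : (f.powersetCard 2).filter (fun e => x ∈ e) = ∅ := by
      rw [filter_eq_empty_iff]
      intro e he hxe
      exact hx ((mem_powersetCard.1 he).1 hxe)
    rw [h4, card_empty]
    exact Even.zero

theorem two_sub {a b c : W} {e : Finset W} (h : e ∈ ({a, b, c} : Finset W).powersetCard 2) :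
    e = {a, b} ∨ e = {a, c} ∨ e = {b, c} := by
  obtain ⟨h1, h2⟩ := mem_powersetCard.1 h
  obtain ⟨x, y, hxy, rfl⟩ := card_eq_two.1 h2
  have hx := h1 (mem_insert_self x _)
  have hy := h1 (mem_insert_of_mem (mem_singleton_self y))
  simp only [mem_insert, mem_singleton] at hx hy
  rcases hx with rfl | rfl | rfl <;> rcases hy with rfl | rfl | rfl
  · exact absurd rfl hxy
  · exact Or.inl rfl
  · exact Or.inr (Or.inl rfl)
  · exact Or.inl (pair_comm _ _)
  · exact absurd rfl hxy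
  · exact Or.inr (Or.inr rfl)
  · exact Or.inr (Or.inl (pair_comm _ _))
  · exact Or.inr (Or.inr (pair_comm _ _))
  · exact absurd rfl hxy

end

/-- **SPLD**. -/
theorem SPLD (hB : S_SPLB) : S_SPLD := by
  intro W _ Φ Φ1 Φ2 T' hΦ hT3 hTn hTe hS Z hZ hZe
  obtain ⟨-, -, hei, -, -⟩ := hB W Φ Φ1 Φ2 T' hΦ hT3 hTn hTe hS
  rw [hei] at hZ ⊢
  have hsub1 : Φ1 ⊆ Φ := by rw [← hS.uni]; exact subset_union_left
  have hsub2 : Φ2 ⊆ Φ := by rw [← hS.uni]; exact subset_union_right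
  have hedg1 : edg Φ1 ⊆ edg Φ := by
    intro e h
    obtain ⟨f, hf, h1⟩ := mem_edg.1 h
    exact mem_edg.2 ⟨f, hsub1 hf, h1⟩
  obtain ⟨Ψ, hΨ, hΨe⟩ := hΦ.sph Z (hZ.trans hedg1) hZe
  have hadd := fun e => fc_card_add hS.dis (hΨ.trans hS.uni.ge) e
  have hD : ∀ e ∈ edg Φ, e ∉ T'.powersetCard 2 → Even (fc (Ψ ∩ Φ2) e).card := by
    intro e he heT
    rcases hS.side e he heT with h | h
    · have h1 : e ∉ edg Φ1 := by
        intro h2
        obtain ⟨f, hf, h3, _⟩ := mem_edg.1 h2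
        have h4 : f ∈ fc Φ1 e := mem_filter.2 ⟨hf, h3⟩
        rw [h] at h4
        exact absurd h4 (notMem_empty f)
      have h2 : ¬ Odd (fc Ψ e).card := fun h3 => h1 (hZ ((hΨe e he).2 h3))
      have h3 : fc (Ψ ∩ Φ1) e = ∅ := by
        rw [← subset_empty, ← h]
        exact filter_subset_filter _ inter_subset_right
      rw [hadd e, h3, card_empty, zero_add] at h2
      exact Nat.not_odd_iff_even.1 h2
    · have h3 : fc (Ψ ∩ Φ2) e = ∅ := by
        rw [← subset_empty, ← h]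
        exact filter_subset_filter _ inter_subset_right
      rw [h3, card_empty]
      exact Even.zero
  have hsum : ∀ x ∈ T', Even (∑ w ∈ T'.erase x, (fc (Ψ ∩ Φ2) {x, w}).card) := by
    intro x hx
    have h1 := vert_even hΦ.three (inter_subset_left.trans hΨ : Ψ ∩ Φ2 ⊆ Φ) x
    have h2 : (T'.powersetCard 2).filter (fun e => x ∈ e) ⊆ (edg Φ).filter (fun e => x ∈ e) :=
      filter_subset_filter _ hTe
    rw [← Finset.sum_sdiff h2] at h1
    have h3 : Even (∑ e ∈ (edg Φ).filter (fun e => x ∈ e) \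
        (T'.powersetCard 2).filter (fun e => x ∈ e), (fc (Ψ ∩ Φ2) e).card) := by
      refine Finset.even_sum _ fun e he => ?_
      obtain ⟨h4, h5⟩ := mem_sdiff.1 he
      obtain ⟨h6, h7⟩ := mem_filter.1 h4
      exact hD e h6 fun h8 => h5 (mem_filter.2 ⟨h8, h7⟩)
    have h4 := (Nat.even_add.1 h1).1 h3
    rw [star hx, Finset.sum_image star_inj] at h4
    exact h4
  obtain ⟨a, b, c, hab, hac, hbc, rfl⟩ := Finset.card_eq_three.1 hT3
  have ha : Even ((fc (Ψ ∩ Φ2) {a, b}).card + (fc (Ψ ∩ Φ2) {a, c}).card) := by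
    have h1 := hsum a (by simp)
    have h2 : ({a, b, c} : Finset W).erase a = {b, c} := by
      rw [erase_insert]
      simp [hab, hac]
    rw [h2, sum_pair hbc] at h1
    exact h1
  have hb : Even ((fc (Ψ ∩ Φ2) {a, b}).card + (fc (Ψ ∩ Φ2) {b, c}).card) := by
    have h1 := hsum b (by simp)
    have h2 : ({a, b, c} : Finset W).erase b = {a, c} := by
      rw [insert_comm, erase_insert]
      simp [hbc, Ne.symm hab]
    rw [h2, sum_pair hac, pair_comm b a] at h1
    exact h1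
  have hpar : ∀ e ∈ ({a, b, c} : Finset W).powersetCard 2,
      (Odd (fc (Ψ ∩ Φ2) e).card ↔ Odd (fc (Ψ ∩ Φ2) {a, b}).card) := by
    intro e he
    simp only [Nat.odd_iff, Nat.even_iff] at ha hb ⊢
    rcases two_sub he with rfl | rfl | rfl
    · rfl
    · omega
    · omega
  by_cases hδ : Odd (fc (Ψ ∩ Φ2) {a, b}).card
  · refine ⟨insert {a, b, c} (Ψ ∩ Φ1), insert_subset_insert _ inter_subset_right, ?_⟩
    intro e he
    rw [hΨe e (hedg1 he), hadd e]
    by_cases heT : e ∈ ({a, b, c} : Finset W).powersetCard 2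
    · have h1 := (hpar e heT).2 hδ
      have h2 : fc (insert {a, b, c} (Ψ ∩ Φ1)) e = insert {a, b, c} (fc (Ψ ∩ Φ1) e) := by
        unfold fc
        rw [filter_insert, if_pos (mem_powersetCard.1 heT).1]
      have h3 : ({a, b, c} : Finset W) ∉ fc (Ψ ∩ Φ1) e := fun h4 =>
        hTn (hΨ (mem_inter.1 (mem_filter.1 h4).1).1)
      rw [h2, card_insert_of_notMem h3]
      simp only [Nat.odd_iff] at h1 ⊢
      omega
    · have h1 := hD e (hedg1 he) heT
      have h2 : fc (insert {a, b, c} (Ψ ∩ Φ1)) e = fc (Ψ ∩ Φ1) e := by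
        unfold fc
        rw [filter_insert, if_neg]
        intro h3
        obtain ⟨f, _, _, h5⟩ := mem_edg.1 he
        exact heT (mem_powersetCard.2 ⟨h3, h5⟩)
      rw [h2]
      simp only [Nat.odd_iff, Nat.even_iff] at h1 ⊢
      omega
  · refine ⟨Ψ ∩ Φ1, inter_subset_right.trans (subset_insert _ _), ?_⟩
    intro e he
    rw [hΨe e (hedg1 he), hadd e]
    have h1 : Even (fc (Ψ ∩ Φ2) e).card := by
      by_cases heT : e ∈ ({a, b, c} : Finset W).powersetCard 2
      · rw [← Nat.not_odd_iff_even, hpar e heT]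
        exact hδ
      · exact hD e (hedg1 he) heT
    simp only [Nat.odd_iff, Nat.even_iff] at h1 ⊢
    omega

end Pool.Agent.R97.HB
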